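import Pool.Agent.helper51.PC.Spec

/-!
# Row pc:KEY (MP_74cfa5_ag)
-/

set_option autoImplicit false

namespace Pool.Agent.PC

open MvPolynomial

universe u

theorem KEY_Ge_mul {K : Type u} [Field K] {v : K → ℤ} (hv : DVal v) {r r' : ℤ} {x y : K}
    (hx : Ge v r x) (hy : Ge v r' y) : Ge v (r + r') (x * y) := by
  rcases hx with hx | hx
  · exact Or.inl (by rw [hx, zero_mul])
  rcases hy with hy | hy
  · exact Or.inl (by rw [hy, mul_zero])
  by_cases hx0 : x = 0
  · exact Or.inl (by rw [hx0, zero_mul])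
  by_cases hy0 : y = 0
  · exact Or.inl (by rw [hy0, mul_zero])
  refine Or.inr ?_
  rw [hv.mul x y hx0 hy0]
  omega

theorem KEY_v_one {K : Type u} [Field K] {v : K → ℤ} (hv : DVal v) : v 1 = 0 := by
  have := hv.mul 1 1 one_ne_zero one_ne_zero
  rw [mul_one] at this
  omega

theorem KEY_Sp_mul {K : Type u} [Field K] {v : K → ℤ} (hv : DVal v) {r r' : ℤ} {J : Set K} {x y : K}
    (hx : Ge v r' x) (hy : y ∈ Sp v r J) : x * y ∈ Sp v (r + r') J := by
  induction hy using AddSubgroup.closure_induction with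
  | mem y hy =>
    obtain ⟨o, ho, j, hj, rfl⟩ := hy
    refine AddSubgroup.subset_closure ⟨x * o, ?_, j, hj, by ring⟩
    rw [add_comm]
    exact KEY_Ge_mul hv hx ho
  | zero => rw [mul_zero]; exact AddSubgroup.zero_mem _
  | add y z _ _ hy hz => rw [mul_add]; exact AddSubgroup.add_mem _ hy hz
  | neg y _ hy => rw [mul_neg]; exact AddSubgroup.neg_mem _ hy

theorem KEY_JO_mul {K : Type u} [Field K] {k : Type u} [Field k] [Algebra k K] {n : ℕ}
    {v : K → ℤ} (hv : DVal v) (D : Fin n → Derivation k K K) (s : K →+* K) {c j : K}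
    (hc : c ∈ OF s v) (hj : j ∈ JO D s v) : c * j ∈ JO D s v := by
  induction hj using AddSubgroup.closure_induction with
  | mem y hy =>
    obtain ⟨o, ho, f, hf, rfl⟩ := hy
    refine AddSubgroup.subset_closure ⟨c * o, ⟨?_, ?_⟩, f, hf, by ring⟩
    · rw [map_mul, hc.1, ho.1]
    · have := KEY_Ge_mul hv hc.2 ho.2
      rwa [add_zero] at this
  | zero => rw [mul_zero]; exact AddSubgroup.zero_mem _
  | add y z _ _ hy hz => rw [mul_add]; exact AddSubgroup.add_mem _ hy hz
  | neg y _ hy => rw [mul_neg]; exact AddSubgroup.neg_mem _ hy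

theorem KEY_Sp_mono {K : Type u} [Field K] {v : K → ℤ} {r : ℤ} {J : Set K} {w : K}
    {J' : AddSubgroup K} (h : ∀ j ∈ J, w * j ∈ J') {y : K} (hy : y ∈ Sp v r J) :
    w * y ∈ Sp v r (J' : Set K) := by
  induction hy using AddSubgroup.closure_induction with
  | mem y hy =>
    obtain ⟨o, ho, j, hj, rfl⟩ := hy
    exact AddSubgroup.subset_closure ⟨o, ho, w * j, h j hj, by ring⟩
  | zero => rw [mul_zero]; exact AddSubgroup.zero_mem _
  | add y z _ _ hy hz => rw [mul_add]; exact AddSubgroup.add_mem _ hy hz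
  | neg y _ hy => rw [mul_neg]; exact AddSubgroup.neg_mem _ hy

theorem KEY (hSGK : SGK_stmt.{u}) (hJIN : JIN_stmt.{u}) (hASA : ASA_stmt.{u}) (hRAM : RAM_stmt.{u})
    (hXV : XV_stmt.{u}) (hLOG : LOG_stmt.{u}) (hLAT : LAT_stmt.{u}) (hCON : CON_stmt.{u})
    (hETA : ETA_stmt.{u}) (hPRJ : PRJ_stmt.{u}) : KEY_stmt.{u} := by
  intro k _ _ n d p hn hN hp D hD s hs v hv hxv hcv hw hloc
  obtain ⟨w, hw⟩ := hw
  have hpr : Fact p.Prime := ⟨hN.1⟩
  have hchK : CharP (KK k n) p := charP_of_injective_algebraMap (algebraMap k (KK k n)).injective p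
  obtain ⟨-, s', hs', hsp', hsc'⟩ := hSGK k n d p hN hp
  have hss : s = s' := by
    apply IsLocalization.ringHom_ext (nonZeroDivisors (AA k n))
    ext f
    · simp only [RingHom.comp_apply]
      rw [hs, hs']
    · simp only [RingHom.comp_apply]
      rw [hs, hs']
  subst hss
  have hN' := hN
  obtain ⟨-, h4, hdn, hdp, -⟩ := hN'
  set x0 : KK k n := xx k n ⟨0, hn⟩ with hx0
  have hx00 : x0 ≠ 0 := by
    rw [hx0, xx, Ne, map_eq_zero_iff _ (IsFractionRing.injective (AA k n) (KK k n))]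
    exact X_ne_zero _
  have hxi : ∀ i, xx k n i ≠ 0 := by
    intro i
    rw [xx, Ne, map_eq_zero_iff _ (IsFractionRing.injective (AA k n) (KK k n))]
    exact X_ne_zero _
  set x1 : KK k n := xx k n ⟨1, by omega⟩ with hx1
  have hsx0 : s x0 = x0 := by
    rw [hx0, xx, hs, sg, aeval_X, dif_neg (by simp), add_zero]
  have hsx1 : s x1 = x1 + x0 := by
    rw [hx1, hx0, xx, xx, hs, sg, aeval_X, dif_pos (by constructor <;> simp <;> omega), map_add]
    rfl
  have hsa : s (x1 / x0) = x1 / x0 + 1 := by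
    rw [map_div₀, hsx0, hsx1, add_div, div_self hx00]
  have hJx : JJ D (xx k n) = 1 := by
    rw [JJ]
    have : (Matrix.of fun i j => D j (xx k n i)) = (1 : Matrix (Fin n) (Fin n) (KK k n)) := by
      ext i j
      rw [Matrix.of_apply, hD, Matrix.one_apply]
      by_cases h : i = j
      · rw [if_pos h, if_pos h.symm]
      · rw [if_neg h, if_neg (Ne.symm h)]
    rw [this, Matrix.det_one]
  have hJs : ∀ j ∈ JO D s v, s j = j := by
    intro j hj
    induction hj using AddSubgroup.closure_induction with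
    | mem y hy =>
      obtain ⟨o, ho, f, hf, rfl⟩ := hy
      rw [map_mul, ho.1, hJIN k n d D hD s hs hsc' f fun i => (hf i).1]
    | zero => exact map_zero s
    | add y z _ _ hy hz => rw [map_add, hy, hz]
    | neg y _ hy => rw [map_neg, hy]
  have hcon := hCON (KK k n) s v hv w hw (JO D s v) hJs fun c hc j hj => KEY_JO_mul hv D s hc hj
  have hx0i : x0⁻¹ ≠ 0 := inv_ne_zero hx00
  have hsx0i : s x0⁻¹ = x0⁻¹ := by rw [map_inv₀, hsx0]
  rcases hASA (KK k n) p s v hv (x1 / x0) hsa with ⟨b, hb, hab⟩ | ⟨b, m, hb, hm, hab0, hab, hNB⟩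
  · have hsab : s (x1 / x0 - b) = x1 / x0 - b + 1 := by rw [map_sub, hsa, hb]; ring
    have heta := hETA k (KK k n) n p D s v hv hsp' hloc (x1 / x0 - b) hsab hab
    constructor
    · refine hcon 1 1 0 one_ne_zero (map_one s) one_ne_zero (map_one s) ?_ ?_
      · rw [KEY_v_one hv]; have := hw.2.2.1; omega
      · rw [one_mul, ← hJx]
        exact heta _ hxv
    · intro h
      refine hcon x0⁻¹ 1 0 hx0i hsx0i one_ne_zero (map_one s) ?_ ?_
      · rw [KEY_v_one hv]; have := hw.2.2.1; omega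
      · rw [one_mul]
        have h1 := hPRJ k n p hn D hD v hv hxv hcv h
        rw [← hx0] at h1
        refine AddSubgroup.closure_le (K := Sp v 0 (JO D s v : Set (KK k n))) |>.2 ?_ h1
        rintro z ⟨c, hc, y, hy, rfl⟩
        have h2 := KEY_Sp_mul hv hc (heta y hy)
        rwa [add_zero] at h2
  · have hsab : s (x1 / x0 - b) = x1 / x0 - b + 1 := by rw [map_sub, hsa, hb]; ring
    have hram := hRAM (KK k n) p s v hv hsp' (x1 / x0 - b) m hsab hab0 hm hab hNB
    have hxv' := hXV k n d p hn hN s hs v hv hxv m hm hram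
    have hlog := hLOG k (KK k n) n p D s v hv hsp' (x1 / x0 - b) m hsab hab0 hm hab hNB (xx k n) hxi
    have hprod : x0 * ∏ i ∈ Finset.univ.erase (⟨0, hn⟩ : Fin n), xx k n i = ∏ i, xx k n i :=
      Finset.mul_prod_erase Finset.univ (fun i => xx k n i) (Finset.mem_univ (⟨0, hn⟩ : Fin n))
    have hp0 : ∏ i ∈ Finset.univ.erase (⟨0, hn⟩ : Fin n), xx k n i ≠ 0 :=
      Finset.prod_ne_zero_iff.2 fun i _ => hxi i
    have h1 : x0⁻¹ ∈ Sp v m (LL D s) := by
      have h2 := KEY_Sp_mul hv hxv' hlog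
      have h3 : (∏ i ∈ Finset.univ.erase (⟨0, hn⟩ : Fin n), xx k n i) *
          (JJ D (xx k n) / ∏ i, xx k n i) = x0⁻¹ := by
        rw [hJx, ← hprod]
        field_simp
      have h4 : -((p : ℤ) - 1) * m + (p : ℤ) * m = m := by ring
      rw [h3, h4] at h2
      exact h2
    have h2 : (1 : KK k n) ∈ Sp v m (LL D s) := by
      have h3 := KEY_Sp_mul hv (hxv ⟨0, hn⟩) h1
      rw [← hx0, mul_inv_cancel₀ hx00, add_zero] at h3
      exact h3
    have h3 : ∀ z ∈ Sp v m (LL D s), w * z ∈ Sp v m (JO D s v : Set (KK k n)) := fun z hz =>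
      KEY_Sp_mono (hLAT k (KK k n) n D s v hv w hw) hz
    constructor
    · exact hcon 1 w m one_ne_zero (map_one s) hw.1 hw.2.1 (by omega) (h3 1 h2)
    · intro _
      exact hcon x0⁻¹ w m hx0i hsx0i hw.1 hw.2.1 (by omega) (h3 _ h1)

end Pool.Agent.PC
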